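import Mathlib

/-!
# Euler characteristic of products of spheres through finite CW structures

A finite CW structure on a whole space is a Mathlib `Topology.CWComplex (Set.univ : Set X)` with
finitely many cells; `cwEuler` is the alternating number of its cells.  We show that the unit sphere
of an inner product space of dimension `n + 1` has the CW structure with one `0`-cell and one
`n`-cell, and that a product of two spheres has a CW structure with four cells of
dimensions `0, m, n, m + n`.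
-/

open Set Metric Topology

set_option autoImplicit false
set_option linter.unusedSectionVars false

noncomputable section

namespace Pool.Agent.H465R2.HS

/-- the alternating number of cells of a CW structure (meaningful if it is finite) -/
def cwEuler {X : Type} [TopologicalSpace X] (c : CWComplex (univ : Set X)) : ℤ :=
  ∑ᶠ s : (Σ n, c.cell n), (-1 : ℤ) ^ s.1

/-- The space has a finite CW structure and the alternating number of its cells is `e`. -/
def HasEulerChar (X : Type) [TopologicalSpace X] (e : ℤ) : Prop :=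
  ∃ c : CWComplex (univ : Set X), Finite (Σ n, c.cell n) ∧ cwEuler c = e

/-- a finite CW structure as a finite family of cells -/
structure Fam (X : Type) [TopologicalSpace X] where
  ι : Type
  fin : Fintype ι
  dim : ι → ℕ
  f : ∀ i, PartialEquiv (Fin (dim i) → ℝ) X
  src : ∀ i, (f i).source = ball 0 1
  cont : ∀ i, ContinuousOn (f i) (closedBall 0 1)
  csymm : ∀ i, ContinuousOn (f i).symm (f i).target
  disj : ∀ i j, i ≠ j → Disjoint (f i '' ball 0 1) (f j '' ball 0 1)
  bd : ∀ i, ∀ x ∈ sphere (0 : Fin (dim i) → ℝ) 1, ∃ j, dim j < dim i ∧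
    f i x ∈ f j '' closedBall 0 1
  cover : ∀ x, ∃ i, x ∈ f i '' closedBall 0 1

namespace Fam

variable {X Y : Type} [TopologicalSpace X] [TopologicalSpace Y]

attribute [instance] Fam.fin

/-- the characteristic map of a cell of dimension `n` -/
def map (F : Fam X) (n : ℕ) (i : {i : F.ι // F.dim i = n}) : PartialEquiv (Fin n → ℝ) X :=
  i.2 ▸ F.f i.1

theorem map_self (F : Fam X) (i : F.ι) : F.map (F.dim i) ⟨i, rfl⟩ = F.f i := rfl

/-- the Mathlib CW structure of a family -/
@[instance_reducible] def toCW (F : Fam X) : CWComplex (univ : Set X) :=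
  CWComplex.mkFinite (univ : Set X) (fun n => {i : F.ι // F.dim i = n}) F.map
    (by
      obtain ⟨N, hN⟩ := (Set.finite_range F.dim).bddAbove
      filter_upwards [Filter.eventually_gt_atTop N] with n hn
      refine ⟨fun i => ?_⟩
      have := hN ⟨i.1, i.2⟩
      omega)
    (fun n => inferInstance)
    (by rintro n ⟨i, rfl⟩; exact F.src i)
    (by rintro n ⟨i, rfl⟩; exact F.cont i)
    (by rintro n ⟨i, rfl⟩; exact F.csymm i)
    (by
      rintro ⟨n, i, rfl⟩ - ⟨m, j, rfl⟩ - hne
      have h : i ≠ j := by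
        rintro rfl
        exact hne rfl
      exact F.disj i j h)
    (by
      rintro n ⟨i, rfl⟩ x hx
      obtain ⟨j, hj, hm⟩ := F.bd i x hx
      simp only [mem_iUnion]
      exact ⟨F.dim j, hj, ⟨j, rfl⟩, hm⟩)
    (by
      rw [eq_univ_iff_forall]
      intro x
      obtain ⟨i, hi⟩ := F.cover x
      simp only [mem_iUnion]
      exact ⟨F.dim i, ⟨i, rfl⟩, hi⟩)

theorem cell_toCW (F : Fam X) (n : ℕ) : F.toCW.cell n = {i : F.ι // F.dim i = n} := rfl

/-- the cells of the structure -/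
def cells (F : Fam X) : (Σ n, F.toCW.cell n) ≃ F.ι where
  toFun s := (s.2 : {i : F.ι // F.dim i = s.1}).1
  invFun i := ⟨F.dim i, (⟨i, rfl⟩ : {j : F.ι // F.dim j = F.dim i})⟩
  left_inv := by
    rintro ⟨n, s⟩
    obtain ⟨i, rfl⟩ := (s : {i : F.ι // F.dim i = n})
    rfl
  right_inv i := rfl

theorem cells_dim (F : Fam X) (s : Σ n, F.toCW.cell n) : F.dim (F.cells s) = s.1 :=
  (s.2 : {i : F.ι // F.dim i = s.1}).2

theorem hasEulerChar (F : Fam X) : HasEulerChar X (∑ i, (-1 : ℤ) ^ F.dim i) := by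
  refine ⟨F.toCW, Finite.of_equiv _ F.cells.symm, ?_⟩
  have h1 : cwEuler F.toCW = ∑ᶠ s : (Σ n, F.toCW.cell n), (-1 : ℤ) ^ F.dim (F.cells s) := by
    unfold cwEuler
    exact finsum_congr fun s => by rw [F.cells_dim]
  rw [h1, finsum_comp_equiv F.cells (f := fun i => (-1 : ℤ) ^ F.dim i)]
  exact finsum_eq_sum_of_fintype _

/-- splitting coordinates -/
def split (a b : ℕ) : (Fin (a + b) → ℝ) ≃ (Fin a → ℝ) × (Fin b → ℝ) where
  toFun z := (fun i => z (Fin.castAdd b i), fun j => z (Fin.natAdd a j))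
  invFun p := Fin.append p.1 p.2
  left_inv z := by
    ext k
    refine Fin.addCases (fun i => ?_) (fun j => ?_) k <;> simp
  right_inv p := by
    ext k <;> simp

theorem continuous_split (a b : ℕ) : Continuous (split a b) := by
  unfold split
  simp only [Equiv.coe_fn_mk]
  fun_prop

theorem continuous_split_symm (a b : ℕ) : Continuous (split a b).symm := by
  refine continuous_pi fun k => ?_
  change Continuous fun p : (Fin a → ℝ) × (Fin b → ℝ) => Fin.append p.1 p.2 k
  refine Fin.addCases (fun i => ?_) (fun j => ?_) k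
  · simp only [Fin.append_left]
    fun_prop
  · simp only [Fin.append_right]
    fun_prop

theorem norm_split {a b : ℕ} (z : Fin (a + b) → ℝ) (r : ℝ) (hr : 0 ≤ r) :
    ‖z‖ ≤ r ↔ ‖(split a b z).1‖ ≤ r ∧ ‖(split a b z).2‖ ≤ r := by
  rw [pi_norm_le_iff_of_nonneg hr, pi_norm_le_iff_of_nonneg hr, pi_norm_le_iff_of_nonneg hr]
  constructor
  · intro h
    exact ⟨fun i => h _, fun j => h _⟩
  · rintro ⟨h1, h2⟩ k
    refine Fin.addCases (fun i => h1 i) (fun j => h2 j) k

theorem norm_split_lt {a b : ℕ} (z : Fin (a + b) → ℝ) (r : ℝ) (hr : 0 < r) :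
    ‖z‖ < r ↔ ‖(split a b z).1‖ < r ∧ ‖(split a b z).2‖ < r := by
  rw [pi_norm_lt_iff hr, pi_norm_lt_iff hr, pi_norm_lt_iff hr]
  constructor
  · intro h
    exact ⟨fun i => h _, fun j => h _⟩
  · rintro ⟨h1, h2⟩ k
    refine Fin.addCases (fun i => h1 i) (fun j => h2 j) k

/-- the product of two characteristic maps -/
def pmap {a b : ℕ} (f : PartialEquiv (Fin a → ℝ) X) (g : PartialEquiv (Fin b → ℝ) Y) :
    PartialEquiv (Fin (a + b) → ℝ) (X × Y) :=
  (split a b).toPartialEquiv.trans (f.prod g)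

theorem pmap_apply {a b : ℕ} (f : PartialEquiv (Fin a → ℝ) X) (g : PartialEquiv (Fin b → ℝ) Y)
    (z : Fin (a + b) → ℝ) : pmap f g z = (f (split a b z).1, g (split a b z).2) := rfl

theorem image_pmap_ball {a b : ℕ} (f : PartialEquiv (Fin a → ℝ) X)
    (g : PartialEquiv (Fin b → ℝ) Y) :
    pmap f g '' ball 0 1 = (f '' ball 0 1) ×ˢ (g '' ball 0 1) := by
  ext ⟨x, y⟩
  constructor
  · rintro ⟨z, hz, hzx⟩
    rw [mem_ball_zero_iff, norm_split_lt z 1 one_pos] at hz
    rw [pmap_apply, Prod.mk.injEq] at hzx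
    exact ⟨⟨_, mem_ball_zero_iff.2 hz.1, hzx.1⟩, ⟨_, mem_ball_zero_iff.2 hz.2, hzx.2⟩⟩
  · rintro ⟨⟨u, hu, hux⟩, ⟨v, hv, hvy⟩⟩
    refine ⟨(split a b).symm (u, v), ?_, ?_⟩
    · rw [mem_ball_zero_iff, norm_split_lt _ 1 one_pos, Equiv.apply_symm_apply]
      exact ⟨mem_ball_zero_iff.1 hu, mem_ball_zero_iff.1 hv⟩
    · rw [pmap_apply, Equiv.apply_symm_apply]
      exact Prod.ext hux hvy

theorem mem_image_pmap_closedBall {a b : ℕ} (f : PartialEquiv (Fin a → ℝ) X)
    (g : PartialEquiv (Fin b → ℝ) Y) {x : X} {y : Y} (hx : x ∈ f '' closedBall 0 1)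
    (hy : y ∈ g '' closedBall 0 1) : (x, y) ∈ pmap f g '' closedBall 0 1 := by
  obtain ⟨u, hu, hux⟩ := hx
  obtain ⟨v, hv, hvy⟩ := hy
  refine ⟨(split a b).symm (u, v), ?_, ?_⟩
  · rw [mem_closedBall_zero_iff, norm_split _ 1 zero_le_one, Equiv.apply_symm_apply]
    exact ⟨mem_closedBall_zero_iff.1 hu, mem_closedBall_zero_iff.1 hv⟩
  · rw [pmap_apply, Equiv.apply_symm_apply]
    exact Prod.ext hux hvy

/-- the product structure -/
def prod (F : Fam X) (G : Fam Y) : Fam (X × Y) where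
  ι := F.ι × G.ι
  fin := inferInstance
  dim p := F.dim p.1 + G.dim p.2
  f p := pmap (F.f p.1) (G.f p.2)
  src p := by
    ext z
    change (True ∧ _) ↔ _
    rw [mem_ball_zero_iff, norm_split_lt z 1 one_pos]
    change (True ∧ ((split _ _ z).1 ∈ (F.f p.1).source ∧ (split _ _ z).2 ∈ (G.f p.2).source)) ↔ _
    rw [F.src, G.src, mem_ball_zero_iff, mem_ball_zero_iff]
    tauto
  cont p := by
    have h : MapsTo (split (F.dim p.1) (G.dim p.2)) (closedBall 0 1)
        (closedBall 0 1 ×ˢ closedBall 0 1) := by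
      intro z hz
      rw [mem_closedBall_zero_iff, norm_split z 1 zero_le_one] at hz
      exact ⟨mem_closedBall_zero_iff.2 hz.1, mem_closedBall_zero_iff.2 hz.2⟩
    have h2 : ContinuousOn (fun q : (Fin (F.dim p.1) → ℝ) × (Fin (G.dim p.2) → ℝ) =>
        (F.f p.1 q.1, G.f p.2 q.2)) (closedBall 0 1 ×ˢ closedBall 0 1) :=
      (F.cont p.1).prodMap (G.cont p.2)
    exact h2.comp (continuous_split _ _).continuousOn h
  csymm p := by
    have h : (pmap (F.f p.1) (G.f p.2)).target = (F.f p.1).target ×ˢ (G.f p.2).target := by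
      ext z
      change (z ∈ (F.f p.1).target ×ˢ (G.f p.2).target ∧ True) ↔ _
      simp
    rw [h]
    have h2 : ContinuousOn (fun q : X × Y => ((F.f p.1).symm q.1, (G.f p.2).symm q.2))
        ((F.f p.1).target ×ˢ (G.f p.2).target) := (F.csymm p.1).prodMap (G.csymm p.2)
    exact (continuous_split_symm _ _).comp_continuousOn h2
  disj p q hpq := by
    rw [image_pmap_ball, image_pmap_ball, Set.disjoint_prod]
    by_cases h : p.1 = q.1
    · exact Or.inr (G.disj _ _ fun h2 => hpq (Prod.ext h h2))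
    · exact Or.inl (F.disj _ _ h)
  bd p z hz := by
    rw [mem_sphere_zero_iff_norm] at hz
    have h1 := (norm_split z 1 zero_le_one).1 hz.le
    have h2 : ¬ (‖(split _ _ z).1‖ < 1 ∧ ‖(split _ _ z).2‖ < 1) := fun h =>
      absurd ((norm_split_lt z 1 one_pos).2 h) (by rw [hz]; exact lt_irrefl _)
    by_cases h3 : ‖(split (F.dim p.1) (G.dim p.2) z).1‖ = 1
    · obtain ⟨j, hj, hm⟩ := F.bd p.1 _ (mem_sphere_zero_iff_norm.2 h3)
      exact ⟨(j, p.2), by change F.dim j + G.dim p.2 < _; omega,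
        mem_image_pmap_closedBall _ _ hm ⟨_, mem_closedBall_zero_iff.2 h1.2, rfl⟩⟩
    · have h4 : ‖(split (F.dim p.1) (G.dim p.2) z).2‖ = 1 := by
        by_contra h5
        exact h2 ⟨lt_of_le_of_ne h1.1 h3, lt_of_le_of_ne h1.2 h5⟩
      obtain ⟨j, hj, hm⟩ := G.bd p.2 _ (mem_sphere_zero_iff_norm.2 h4)
      exact ⟨(p.1, j), by change F.dim p.1 + G.dim j < _; omega,
        mem_image_pmap_closedBall _ _ ⟨_, mem_closedBall_zero_iff.2 h1.1, rfl⟩ hm⟩
  cover z := by
    obtain ⟨i, hi⟩ := F.cover z.1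
    obtain ⟨j, hj⟩ := G.cover z.2
    exact ⟨(i, j), mem_image_pmap_closedBall _ _ hi hj⟩

end Fam

section sphere

open Module RealInnerProductSpace

variable {V : Type} [NormedAddCommGroup V] [InnerProductSpace ℝ V]

/-- the isometry of the orthogonal complement with coordinates -/
def sU (n : ℕ) [Fact (finrank ℝ V = n + 1)] (v : sphere (0 : V) 1) :
    (ℝ ∙ (v : V))ᗮ ≃ₗᵢ[ℝ] EuclideanSpace ℝ (Fin n) :=
  (OrthonormalBasis.fromOrthogonalSpanSingleton n (ne_zero_of_mem_unit_sphere v)).repr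

/-- a vector of coordinates, as a vector of `V` -/
def sW (n : ℕ) [Fact (finrank ℝ V = n + 1)] (v : sphere (0 : V) 1) (x : Fin n → ℝ) : V :=
  ((sU n v).symm (WithLp.toLp 2 x) : V)

theorem continuous_sW (n : ℕ) [Fact (finrank ℝ V = n + 1)] (v : sphere (0 : V) 1) :
    Continuous (sW n v) := by
  unfold sW
  exact continuous_subtype_val.comp ((sU n v).symm.continuous.comp (PiLp.continuous_toLp 2 _))

theorem sW_smul (n : ℕ) [Fact (finrank ℝ V = n + 1)] (v : sphere (0 : V) 1) (c : ℝ)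
    (x : Fin n → ℝ) : sW n v (c • x) = c • sW n v x := by
  unfold sW
  rw [WithLp.toLp_smul, map_smul]
  rfl

theorem sW_eq_zero (n : ℕ) [Fact (finrank ℝ V = n + 1)] (v : sphere (0 : V) 1)
    {x : Fin n → ℝ} (h : sW n v x = 0) : x = 0 := by
  unfold sW at h
  have h1 : (sU n v).symm (WithLp.toLp 2 x) = 0 := Subtype.ext h
  have h2 : WithLp.toLp 2 x = 0 := by
    rw [← (sU n v).apply_symm_apply (WithLp.toLp 2 x), h1, map_zero]
  exact (WithLp.toLp_injective 2) h2

/-- the ambient formula of the characteristic map of the top cell -/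
def sG (n : ℕ) [Fact (finrank ℝ V = n + 1)] (v : sphere (0 : V) 1) (x : Fin n → ℝ) : V :=
  (‖sW n v x‖ ^ 2 + 4 * (1 - ‖x‖) ^ 2)⁻¹ • (4 * (1 - ‖x‖)) • sW n v x +
    (‖sW n v x‖ ^ 2 + 4 * (1 - ‖x‖) ^ 2)⁻¹ • (‖sW n v x‖ ^ 2 - 4 * (1 - ‖x‖) ^ 2) • (v : V)

theorem sG_pos (n : ℕ) [Fact (finrank ℝ V = n + 1)] (v : sphere (0 : V) 1) (x : Fin n → ℝ) :
    0 < ‖sW n v x‖ ^ 2 + 4 * (1 - ‖x‖) ^ 2 := by
  by_cases h : sW n v x = 0
  · have h1 := sW_eq_zero n v h
    rw [h1, norm_zero]
    have : 0 ≤ ‖sW n v 0‖ ^ 2 := by positivity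
    linarith
  · have h1 : 0 < ‖sW n v x‖ := norm_pos_iff.2 h
    have : 0 ≤ (1 - ‖x‖) ^ 2 := by positivity
    have : 0 < ‖sW n v x‖ ^ 2 := by positivity
    linarith

theorem continuous_sG (n : ℕ) [Fact (finrank ℝ V = n + 1)] (v : sphere (0 : V) 1) :
    Continuous (sG n v) := by
  have h := continuous_sW n v
  have h0 : Continuous fun x => (‖sW n v x‖ ^ 2 + 4 * (1 - ‖x‖) ^ 2)⁻¹ :=
    Continuous.inv₀ (by fun_prop) fun x => (sG_pos n v x).ne'
  unfold sG
  fun_prop

/-- the characteristic map of the top cell -/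
def sF (n : ℕ) [Fact (finrank ℝ V = n + 1)] (v : sphere (0 : V) 1) (x : Fin n → ℝ) :
    sphere (0 : V) 1 :=
  if ‖x‖ < 1 then (stereographic' n v).symm (WithLp.toLp 2 ((1 - ‖x‖)⁻¹ • x)) else v

theorem coe_sF (n : ℕ) [Fact (finrank ℝ V = n + 1)] (v : sphere (0 : V) 1) {x : Fin n → ℝ}
    (hx : ‖x‖ ≤ 1) : (sF n v x : V) = sG n v x := by
  unfold sF
  split_ifs with h
  · rw [stereographic'_symm_apply]
    change (‖sW n v ((1 - ‖x‖)⁻¹ • x)‖ ^ 2 + 4)⁻¹ • (4 : ℝ) • sW n v ((1 - ‖x‖)⁻¹ • x) +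
      (‖sW n v ((1 - ‖x‖)⁻¹ • x)‖ ^ 2 + 4)⁻¹ • (‖sW n v ((1 - ‖x‖)⁻¹ • x)‖ ^ 2 - 4) • (v : V) = _
    rw [sW_smul, norm_smul, norm_inv, Real.norm_of_nonneg (by linarith : 0 ≤ 1 - ‖x‖)]
    unfold sG
    have h1 : (0 : ℝ) < 1 - ‖x‖ := by linarith
    have h2 := sG_pos n v x
    have h3 : ((1 - ‖x‖)⁻¹ * ‖sW n v x‖) ^ 2 + 4 =
        (‖sW n v x‖ ^ 2 + 4 * (1 - ‖x‖) ^ 2) / (1 - ‖x‖) ^ 2 := by
      field_simp
    have h4 : ((1 - ‖x‖)⁻¹ * ‖sW n v x‖) ^ 2 - 4 =
        (‖sW n v x‖ ^ 2 - 4 * (1 - ‖x‖) ^ 2) / (1 - ‖x‖) ^ 2 := by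
      field_simp
    rw [h3, h4]
    simp only [smul_smul]
    congr 2
    · field_simp
    · field_simp
  · have h1 : ‖x‖ = 1 := le_antisymm hx (not_lt.1 h)
    unfold sG
    have h2 := sG_pos n v x
    rw [h1] at h2 ⊢
    simp only [sub_self, ne_eq, OfNat.ofNat_ne_zero, not_false_eq_true, zero_pow, mul_zero,
      add_zero, zero_smul, smul_zero, zero_add, sub_zero] at h2 ⊢
    rw [smul_smul, inv_mul_cancel₀ h2.ne', one_smul]

/-- the top cell of the sphere -/
def sTop (n : ℕ) [Fact (finrank ℝ V = n + 1)] (v : sphere (0 : V) 1) :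
    PartialEquiv (Fin n → ℝ) (sphere (0 : V) 1) where
  toFun := sF n v
  invFun p := (1 + ‖WithLp.ofLp (stereographic' n v p)‖)⁻¹ • WithLp.ofLp (stereographic' n v p)
  source := ball 0 1
  target := {v}ᶜ
  map_source' x hx := by
    rw [mem_ball_zero_iff] at hx
    have h : sF n v x = (stereographic' n v).symm (WithLp.toLp 2 ((1 - ‖x‖)⁻¹ • x)) := if_pos hx
    have h2 : (stereographic' n v).symm (WithLp.toLp 2 ((1 - ‖x‖)⁻¹ • x)) ∈
        (stereographic' n v).source :=
      (stereographic' n v).map_target (by rw [stereographic'_target]; exact mem_univ _)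
    rw [stereographic'_source] at h2
    rw [h]
    exact h2
  map_target' p hp := by
    rw [mem_ball_zero_iff, norm_smul, norm_inv,
      Real.norm_of_nonneg (by positivity : 0 ≤ 1 + ‖WithLp.ofLp (stereographic' n v p)‖),
      inv_mul_lt_iff₀ (by positivity)]
    linarith
  left_inv' x hx := by
    rw [mem_ball_zero_iff] at hx
    have h : sF n v x = (stereographic' n v).symm (WithLp.toLp 2 ((1 - ‖x‖)⁻¹ • x)) := if_pos hx
    rw [h, (stereographic' n v).right_inv (by rw [stereographic'_target]; exact mem_univ _)]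
    have h1 : (0 : ℝ) < 1 - ‖x‖ := by linarith
    simp only [norm_smul, norm_inv, Real.norm_of_nonneg h1.le, smul_smul]
    have h2 : (1 + (1 - ‖x‖)⁻¹ * ‖x‖)⁻¹ * (1 - ‖x‖)⁻¹ = 1 := by
      field_simp
      ring
    rw [h2, one_smul]
  right_inv' p hp := by
    set w := WithLp.ofLp (stereographic' n v p) with hw
    have h0 : (0 : ℝ) < 1 + ‖w‖ := by positivity
    have h1 : ‖(1 + ‖w‖)⁻¹ • w‖ = (1 + ‖w‖)⁻¹ * ‖w‖ := by
      rw [norm_smul, norm_inv, Real.norm_of_nonneg h0.le]
    have h2 : ‖(1 + ‖w‖)⁻¹ • w‖ < 1 := by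
      rw [h1, inv_mul_lt_iff₀ h0]
      linarith
    have h : sF n v ((1 + ‖w‖)⁻¹ • w) = (stereographic' n v).symm
        (WithLp.toLp 2 ((1 - ‖(1 + ‖w‖)⁻¹ • w‖)⁻¹ • ((1 + ‖w‖)⁻¹ • w))) := if_pos h2
    rw [h, h1, smul_smul]
    have h3 : (1 - (1 + ‖w‖)⁻¹ * ‖w‖)⁻¹ * (1 + ‖w‖)⁻¹ = 1 := by
      field_simp
      ring
    rw [h3, one_smul]
    exact (stereographic' n v).left_inv (by rw [stereographic'_source]; exact hp)

/-- the point cell -/
def sPt {X : Type} (v : X) : PartialEquiv (Fin 0 → ℝ) X where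
  toFun _ := v
  invFun _ := 0
  source := ball 0 1
  target := {v}
  map_source' _ _ := rfl
  map_target' _ _ := mem_ball_self one_pos
  left_inv' _ _ := Subsingleton.elim _ _
  right_inv' _ hp := hp.symm

/-- the structure of the unit sphere with a `0`-cell and an `n`-cell -/
def sphereFam (n : ℕ) [Fact (finrank ℝ V = n + 1)] (hn : 0 < n) (v : sphere (0 : V) 1) :
    Fam (sphere (0 : V) 1) where
  ι := Bool
  fin := inferInstance
  dim b := cond b n 0
  f b := match b with
    | true => sTop n v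
    | false => sPt v
  src b := by cases b <;> rfl
  cont b := by
    cases b
    · exact continuousOn_const
    · rw [continuousOn_iff_continuous_domRestrict, Topology.IsInducing.subtypeVal.continuous_iff]
      have h : (Subtype.val ∘ (closedBall (0 : Fin n → ℝ) 1).domRestrict (sF n v)) =
          fun x : closedBall (0 : Fin n → ℝ) 1 => sG n v x.1 := by
        ext x
        exact coe_sF n v (mem_closedBall_zero_iff.1 x.2)
      change Continuous (Subtype.val ∘ (closedBall (0 : Fin n → ℝ) 1).domRestrict (sF n v))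
      rw [h]
      exact (continuous_sG n v).comp continuous_subtype_val
  csymm b := by
    cases b
    · exact continuousOn_const
    · have h1 : ContinuousOn (stereographic' n v) {v}ᶜ := by
        have := (stereographic' n v).continuousOn
        rwa [stereographic'_source] at this
      have h2 : ContinuousOn (fun p => WithLp.ofLp (stereographic' n v p)) {v}ᶜ :=
        (PiLp.continuous_ofLp 2 _).comp_continuousOn h1
      have h3 : ContinuousOn (fun p => (1 + ‖WithLp.ofLp (stereographic' n v p)‖)⁻¹) {v}ᶜ :=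
        ContinuousOn.inv₀ (continuousOn_const.add h2.norm) fun p hp => by positivity
      exact h3.smul h2
  disj := by
    have key : Disjoint (sTop n v '' ball 0 1) (sPt v '' ball 0 1) := by
      rw [Set.disjoint_left]
      rintro p ⟨x, hx, hp⟩ ⟨y, hy, hq⟩
      have h1 : sTop n v x ∈ ({v}ᶜ : Set (sphere (0 : V) 1)) := (sTop n v).map_source hx
      rw [hp, ← hq] at h1
      exact h1 rfl
    intro i j hij
    cases i <;> cases j
    · exact absurd rfl hij
    · exact key.symm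
    · exact key
    · exact absurd rfl hij
  bd b := by
    cases b
    · intro x hx
      change Fin 0 → ℝ at x
      change x ∈ sphere (0 : Fin 0 → ℝ) 1 at hx
      have hx0 : x = 0 := Subsingleton.elim _ _
      rw [hx0, mem_sphere_zero_iff_norm, norm_zero] at hx
      exact absurd hx zero_ne_one
    · intro x hx
      refine ⟨false, hn, ⟨0, mem_closedBall_self zero_le_one, ?_⟩⟩
      have h : ¬ ‖x‖ < 1 := by
        rw [mem_sphere_zero_iff_norm.1 hx]
        exact lt_irrefl _
      exact (if_neg h).symm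
  cover p := by
    by_cases h : p = v
    · exact ⟨false, ⟨0, mem_closedBall_self zero_le_one, h.symm⟩⟩
    · exact ⟨true, ⟨_, ball_subset_closedBall ((sTop n v).map_target h), (sTop n v).right_inv h⟩⟩

theorem exists_unit (n : ℕ) [Fact (finrank ℝ V = n + 1)] : Nonempty (sphere (0 : V) 1) := by
  have : Nontrivial V := Module.nontrivial_of_finrank_pos (R := ℝ)
    (by rw [Fact.out (p := finrank ℝ V = n + 1)]; omega)
  obtain ⟨x, hx⟩ := exists_norm_eq V zero_le_one
  exact ⟨⟨x, mem_sphere_zero_iff_norm.2 hx⟩⟩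

/-- The unit sphere of dimension `n ≥ 1` has Euler characteristic `1 + (-1)^n`. -/
theorem sphere_hasEulerChar (n : ℕ) [Fact (finrank ℝ V = n + 1)] (hn : 0 < n) :
    HasEulerChar (sphere (0 : V) 1) (1 + (-1) ^ n) := by
  obtain ⟨v⟩ := exists_unit (V := V) n
  have h := (sphereFam n hn v).hasEulerChar
  have h2 : ∑ i, (-1 : ℤ) ^ (sphereFam n hn v).dim i = 1 + (-1) ^ n := by
    change ∑ i : Bool, (-1 : ℤ) ^ (cond i n 0) = _
    rw [Fintype.sum_bool]
    simp [add_comm]
  rwa [h2] at h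

/-- A product of two spheres of dimensions `m, n ≥ 1` has
Euler characteristic `(1 + (-1)^m) (1 + (-1)^n)`. -/
theorem sphere_prod_hasEulerChar {W : Type} [NormedAddCommGroup W] [InnerProductSpace ℝ W]
    (m n : ℕ) [Fact (finrank ℝ V = m + 1)] [Fact (finrank ℝ W = n + 1)] (hm : 0 < m)
    (hn : 0 < n) :
    HasEulerChar (sphere (0 : V) 1 × sphere (0 : W) 1) ((1 + (-1) ^ m) * (1 + (-1) ^ n)) := by
  obtain ⟨v⟩ := exists_unit (V := V) m
  obtain ⟨w⟩ := exists_unit (V := W) n
  have h := ((sphereFam m hm v).prod (sphereFam n hn w)).hasEulerChar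
  have h2 : ∑ i, (-1 : ℤ) ^ ((sphereFam m hm v).prod (sphereFam n hn w)).dim i =
      (1 + (-1) ^ m) * (1 + (-1) ^ n) := by
    change ∑ i : Bool × Bool, (-1 : ℤ) ^ (cond i.1 m 0 + cond i.2 n 0) = _
    rw [Fintype.sum_prod_type]
    simp only [Fintype.sum_bool, cond_true, cond_false]
    ring
  rwa [h2] at h

/-- The Euler characteristic of a product of two spheres of odd dimensions is zero. -/
theorem odd_sphere_prod_hasEulerChar {W : Type} [NormedAddCommGroup W] [InnerProductSpace ℝ W]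
    (m n : ℕ) [Fact (finrank ℝ V = m + 1)] [Fact (finrank ℝ W = n + 1)] (hm : Odd m)
    (hn : 0 < n) : HasEulerChar (sphere (0 : V) 1 × sphere (0 : W) 1) 0 := by
  have h := sphere_prod_hasEulerChar (V := V) (W := W) m n hm.pos hn
  rwa [hm.neg_one_pow, add_neg_cancel, zero_mul] at h

end sphere

end Pool.Agent.H465R2.HS
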